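import Pool.Agent.H14.Rl1

set_option maxHeartbeats 400000

namespace Pool.Agent.Results.MP_e8bb91_co.Evade

open Finset SimpleGraph Pool.Agent.H14.Rl

/-- the metric dimension: the least size of a resolving set -/
noncomputable def mu {V : Type} (G : SimpleGraph V) : ℕ :=
  sInf {k | ∃ S : Finset V, S.card = k ∧ ∀ x y, (∀ w ∈ S, G.dist x w = G.dist y w) → x = y}

abbrev V := Finset (Fin 29) ⊕ Fin 29

def G : SimpleGraph V where
  Adj
    | .inl x, .inl y => x ≠ y
    | .inl x, .inr i => i ∉ x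
    | .inr i, .inl x => i ∉ x
    | .inr _, .inr _ => False
  symm := ⟨by rintro (x | i) (y | j) h; exacts [Ne.symm h, h, h, h]⟩
  loopless := ⟨by rintro (x | i) h; exacts [h rfl, h]⟩

theorem adj0 (x : V) : x = .inl ∅ ∨ G.Adj x (.inl ∅) := by
  rcases x with x | i
  · by_cases h : x = ∅; exacts [.inl (by rw [h]), .inr h]
  · exact .inr (notMem_empty i)

theorem Gc : G.Connected := by
  have : ∀ x, G.Reachable x (.inl ∅) := fun x => (adj0 x).elim (fun h => h ▸ .rfl) Adj.reachable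
  exact ⟨fun x y => (this x).trans (this y).symm⟩

theorem mu_G : mu G = 29 := by
  have h1 : 29 ∈ {k | ∃ S : Finset V, S.card = k ∧
      ∀ x y, (∀ w ∈ S, G.dist x w = G.dist y w) → x = y} := by
    refine ⟨univ.map ⟨.inr, Sum.inr_injective⟩, by simp, fun x y h => ?_⟩
    have h : ∀ i, G.dist x (.inr i) = G.dist y (.inr i) := fun i => h _ (by simp)
    rcases x with x | i
    · rcases y with y | j
      · congr 1; ext i
        have : G.Adj (.inl x) (.inr i) ↔ G.Adj (.inl y) (.inr i) := by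
          rw [← dist_eq_one_iff_adj, ← dist_eq_one_iff_adj, h]
        exact not_iff_not.1 this
      · exact Gc.dist_eq_zero_iff.1 (by rw [h, dist_self])
    · exact (Gc.dist_eq_zero_iff.1 (by rw [← h, dist_self])).symm
  refine le_antisymm (Nat.sInf_le h1) (le_csInf ⟨_, h1⟩ ?_)
  rintro _ ⟨S, rfl, hS⟩
  by_contra hlt
  have d2 : ∀ x y, G.dist x y ≤ 2 := by
    have : ∀ x, G.dist x (.inl ∅) ≤ 1 := fun x =>
      (adj0 x).elim (fun h => by simp [h]) fun h => (dist_eq_one_iff_adj.2 h).le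
    intro x y
    have a := Gc.dist_triangle (u := x) (v := .inl ∅) (w := y)
    have b := this x; have c := this y
    rw [dist_comm] at c; omega
  have := card_le_card_of_injOn (s := (univ : Finset V) \ S) (t := S.powerset)
    (fun x => S.filter fun w => G.dist x w = 1) (fun x _ => mem_coe.2 (mem_powerset.2 (filter_subset _ _))) (by
      intro x hx y hy e
      refine hS x y fun w hw => ?_
      have e1 : G.dist x w = 1 ↔ G.dist y w = 1 := by
        have := congrArg (w ∈ ·) e; simpa [hw] using this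
      have : G.dist x w ≠ 0 := fun h => by simp [Gc.dist_eq_zero_iff.1 h, hw] at hx
      have : G.dist y w ≠ 0 := fun h => by simp [Gc.dist_eq_zero_iff.1 h, hw] at hy
      have := d2 x w; have := d2 y w; omega)
  rw [card_univ_diff, card_powerset] at this
  have h2 : 2 ^ S.card ≤ 2 ^ 28 := Nat.pow_le_pow_right (by norm_num) (by omega)
  simp only [Fintype.card_sum, Fintype.card_finset, Fintype.card_fin] at this
  omega

theorem rep (p : Sub G 30) : ∃ a y s, G.Adj a (.inl y) ∧ s ≤ 30 ∧ p = P G 30 a (.inl y) s := by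
  obtain ⟨_, ⟨a, rfl⟩ | ⟨a, b, s, h, hs, rfl⟩⟩ := p
  · rcases adj0 a with rfl | h
    · have : G.Adj (.inl ∅) (.inl {0}) := (singleton_ne_empty 0).symm
      exact ⟨_, {0}, 0, this, by omega, (P_zero this).symm⟩
    · exact ⟨a, ∅, 0, h, by omega, (P_zero h).symm⟩
  · have e : (⟨_, .inr ⟨a, b, s, h, hs, rfl⟩⟩ : Sub G 30) = P G 30 a b s := Subtype.ext (P_val h hs).symm
    rw [e]
    rcases b with y | j
    · exact ⟨a, y, s, h, hs, rfl⟩
    · rcases a with x | i
      · exact ⟨_, x, 30 - s, h.symm, by omega, P_symm (by omega) h hs⟩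
      · exact h.elim

theorem ne_of {x v R : Finset (Fin 29)} (hR : Disjoint R x) (hv : v ∈ powersetCard 2 R) : x ≠ v := by
  rintro rfl
  obtain ⟨h1, h2⟩ := mem_powersetCard.1 hv
  rw [(disjoint_self_iff_empty _).1 (hR.mono_left h1)] at h2; simp at h2

theorem probe (x R : Finset (Fin 29)) (hR : Disjoint R x) (t : ℕ) (ht : t ≤ 30) (p : Sub G 30) :
    ∃ R' ⊆ R, ∃ B : Finset (Finset (Fin 29)), B.card ≤ 2 ∧ R.card ≤ R'.card + (if t ≤ 15 then 0 else 1) ∧
      ∃ n, ∀ v ∈ powersetCard 2 R' \ B, (sub G 30).dist p (P G 30 (.inl x) (.inl v) t) = n := by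
  obtain ⟨a, y, s, h, hs, rfl⟩ := rep p
  have key : ∀ (R' : Finset (Fin 29)) (B : Finset (Finset (Fin 29))), R' ⊆ R → y ∈ B →
      (∀ v ∉ B, .inl v ≠ a) → (∀ v ∈ powersetCard 2 R' \ B, G.Adj (.inl v) a) ∨
        (t ≤ 15 ∧ G.Adj (.inl x) a) →
      ∃ n, ∀ v ∈ powersetCard 2 R' \ B,
        (sub G 30).dist (P G 30 a (.inl y) s) (P G 30 (.inl x) (.inl v) t) = n := by
    intro R' B h1 h2 h3 h4
    refine ⟨min ((sub G 30).dist (P G 30 a (.inl y) s) (br G 30 (.inl x)) + t)
      (min s (30 - s) + 30 + (30 - t)), fun v hv => ?_⟩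
    obtain ⟨hv1, hv2⟩ := mem_sdiff.1 hv
    have hy : v ≠ y := fun e => hv2 (e ▸ h2)
    have hy' : (.inl v : V) ≠ .inl y := fun e => hy (Sum.inl.inj e)
    rw [dist_far (u := .inl x) (v := .inl v) (by omega) Gc h (ne_of (hR.mono_left h1) hv1) hs ht (h3 v hv2) hy']
    have l := (dist_pt (m := 30) (by omega) Gc h hs (.inl v)).1 (h3 v hv2) hy'
    rcases h4 with h4 | ⟨h4, h5⟩
    · have := (dist_pt (m := 30) (by omega) Gc h hs (.inl v)).2 (.inr (h4 v hv)) (.inr hy)
      omega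
    · have := (dist_pt (m := 30) (by omega) Gc h hs (.inl x)).2 (.inr h5)
        (by by_cases e : x = y; exacts [.inl (by rw [e]), .inr e])
      omega
  rcases a with z | i
  · exact ⟨R, Subset.rfl, {y, z}, card_le_two, by omega, key R _ Subset.rfl (by simp)
      (fun v hv e => hv (by simp [Sum.inl.inj e])) (.inl fun v hv e => (mem_sdiff.1 hv).2 (by simp [e]))⟩
  · by_cases h15 : t ≤ 15
    · refine ⟨R, Subset.rfl, {y}, by simp, by omega, key R _ Subset.rfl (by simp) (by simp) ?_⟩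
      by_cases hi : i ∈ x
      · exact .inl fun v hv hiv => disjoint_left.1 hR
          ((mem_powersetCard.1 (mem_sdiff.1 hv).1).1 hiv) hi
      · exact .inr ⟨h15, hi⟩
    · refine ⟨R.erase i, erase_subset _ _, {y}, by simp, ?_, key _ _ (erase_subset _ _) (by simp)
        (by simp) (.inl fun v hv hiv => notMem_erase i R ((mem_powersetCard.1 (mem_sdiff.1 hv).1).1 hiv))⟩
      have := pred_card_le_card_erase (s := R) (a := i)
      rw [if_neg h15]; omega

def Fam (S : Set (Sub G 30)) : Prop :=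
  ∃ (x R : Finset (Fin 29)) (B : Finset (Finset (Fin 29))) (t : ℕ), Disjoint R x ∧ 1 ≤ t ∧ t ≤ 30 ∧
    27 ≤ R.card + (t - 15) ∧ B.card ≤ 2 * t ∧
    S = (fun v => P G 30 (.inl x) (.inl v) t) '' (powersetCard 2 R \ B : Finset _)

theorem big {R : Finset (Fin 29)} {B : Finset (Finset (Fin 29))} (h1 : 12 ≤ R.card) (h2 : B.card ≤ 60) :
    1 < (powersetCard 2 R \ B).card := by
  have := le_card_sdiff B (powersetCard 2 R)
  have h3 : Nat.choose 12 2 ≤ R.card.choose 2 := Nat.choose_le_choose 2 h1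
  rw [card_powersetCard] at this
  have : Nat.choose 12 2 = 66 := by decide
  omega

theorem start (x : Finset (Fin 29)) (hx : x.card = 2) (p : Sub G 30) : ∃ S, Fam S ∧
    (∀ y ∈ S, (sub G 30).Adj (br G 30 (.inl x)) y) ∧ ∃ n, ∀ y ∈ S, (sub G 30).dist p y = n := by
  obtain ⟨R, h1, B, h2, h3, n, h4⟩ := probe x xᶜ disjoint_compl_left 1 (by omega) p
  have hd : Disjoint R x := disjoint_compl_left.mono_left h1
  rw [card_compl, hx] at h3
  refine ⟨_, ⟨x, R, B, 1, hd, le_rfl, by omega, by simpa using h3, h2, rfl⟩, ?_, n, ?_⟩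
  · rintro _ ⟨v, hv, rfl⟩
    have : G.Adj (.inl x) (.inl v) := ne_of hd (mem_sdiff.1 hv).1
    exact P_zero (m := 30) this ▸ P_adj this (by omega)
  · rintro _ ⟨v, hv, rfl⟩; exact h4 v hv

theorem evade : ¬ CopWin (sub G 30) := by
  haveI : Finite (Sub G 30) := sub_finite
  refine robber _ Fam ?_ (fun p => ?_) ?_
  · rintro _ ⟨x, R, B, t, h1, h2, h3, h4, h5, rfl⟩
    obtain ⟨v, hv, w, hw, hne⟩ := one_lt_card.1 (big (R := R) (B := B) (by omega) (by omega))
    refine ⟨_, ⟨v, hv, rfl⟩, _, ⟨w, hw, rfl⟩, fun e => hne ?_⟩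
    have a1 : G.Adj (.inl x) (.inl v) := ne_of h1 (mem_sdiff.1 hv).1
    have a2 : G.Adj (.inl x) (.inl w) := ne_of h1 (mem_sdiff.1 hw).1
    rcases h3.eq_or_lt with rfl | h3
    · simp only [P_last (by omega : 0 < 30) a1, P_last (by omega : 0 < 30) a2] at e
      exact Sum.inl.inj (br_inj e)
    · have e := congrArg Subtype.val e
      simp only [P_val a1 h3.le, P_val a2 h3.le] at e
      rcases pt_inj h2 h3 h3.le e with e | e
      exacts [(Sum.inl.inj e.2.1).symm, absurd e.1 a1.ne]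
  · obtain ⟨S, h1, -, h2⟩ := start {0, 1} rfl p
    exact ⟨S, h1, h2⟩
  · rintro _ ⟨x, R, B, t, h1, h2, h3, h4, h5, rfl⟩ p
    rcases h3.eq_or_lt with rfl | h3
    · obtain ⟨v, hv⟩ := card_pos.1 ((big (R := R) (B := B) (by omega) (by omega)).trans' one_pos)
      obtain ⟨S, a1, a2, a3⟩ := start v (mem_powersetCard.1 (mem_sdiff.1 hv).1).2 p
      refine ⟨S, a1, fun y hy => ⟨_, ⟨v, hv, rfl⟩, .inr ?_⟩, a3⟩
      have : G.Adj (.inl x) (.inl v) := ne_of h1 (mem_sdiff.1 hv).1
      simpa only [P_last (by omega : 0 < 30) this] using a2 y hy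
    · obtain ⟨R', a1, B', a2, a3, n, a4⟩ := probe x R h1 (t + 1) h3 p
      refine ⟨_, ⟨x, R', B ∪ B', t + 1, h1.mono_left a1, by omega, h3, by split_ifs at a3 <;> omega,
        (card_union_le _ _).trans (by omega), rfl⟩, ?_, n, ?_⟩
      · rintro _ ⟨v, hv, rfl⟩
        simp only [coe_sdiff, coe_union, Set.mem_diff, mem_coe, Set.mem_union, not_or] at hv
        have hv' := powersetCard_mono a1 hv.1
        exact ⟨_, ⟨v, mem_coe.2 (mem_sdiff.2 ⟨hv', hv.2.1⟩), rfl⟩, .inr (P_adj (ne_of h1 hv') h3)⟩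
      · rintro _ ⟨v, hv, rfl⟩
        simp only [coe_sdiff, coe_union, Set.mem_diff, mem_coe, Set.mem_union, not_or] at hv
        exact a4 v (mem_sdiff.2 ⟨hv.1, hv.2.2⟩)

theorem result : ∃ (V : Type) (_ : Finite V) (G : SimpleGraph V), G.Connected ∧
    ¬ CopWin (sub G (mu G + 1)) :=
  ⟨V, inferInstance, G, Gc, by rw [mu_G]; exact evade⟩

end Pool.Agent.Results.MP_e8bb91_co.Evade
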